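import Pool.Agent.helper1.CD.Spec2

/-!
# Project CD (MP_2e0e07_nt), rows GPD and FIP
-/

set_option autoImplicit false

open NumberField IsDedekindDomain Complex Pool.Agent.CH Pool.Agent.GK

namespace Pool.Agent.CD

theorem GPD (hNNP : NNP_stmt) : GPD_stmt := by
  intro K _ _ _ _ μ _ O hO U hU C T hC hμ hT
  obtain ⟨N, hN⟩ : ∃ N : Subgroup (GalK K), IsOpen (N : Set (GalK K)) ∧ N.Normal ∧ N ≤ U := by
    have h1 : (U : Set (GalK K)) ∈ nhds (1 : GalK K) := hU.mem_nhds U.one_mem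
    have hfi : U.FiniteIndex := by
      have := Subgroup.quotient_finite_of_isOpen U hU
      exact Subgroup.finiteIndex_of_finite_quotient
    refine ⟨U.normalCore, ?_, inferInstance, U.normalCore_le⟩
    have hcl : IsClosed (U.normalCore : Set (GalK K)) := U.normalCore_isClosed (Subgroup.isClosed_of_isOpen U hU)
    exact Subgroup.isOpen_of_isClosed_of_finiteIndex U.normalCore hcl
  obtain ⟨hNo, hNn, hNU⟩ := hN
  obtain ⟨v, hv, hvT, s, hs, hsC⟩ := hNNP K μ _ (hO N hNo hNn) C T hC hμ hT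
  exact ⟨v, hv.1, hvT, s, hs, hNU (hv.2 hs), hsC⟩

theorem FIP (hSPO : SPO_stmt) (hDSL : DSL_stmt) : FIP_stmt := by
  intro K _ _ U T hU hne hT
  obtain ⟨c, δ, hc, hδ, h⟩ := hSPO K U hU hne
  refine ⟨c / 2, by positivity, ?_⟩
  intro δ' hδ'
  -- choose `s` close to `1`
  set A : ℝ := 2 * (T.ncard : ℝ) / c + 1 with hA
  have hA0 : 0 < A := by positivity
  set e : ℝ := min (min δ δ') (Real.exp (-A)) / 2 with he
  have hm0 : 0 < min (min δ δ') (Real.exp (-A)) := lt_min (lt_min hδ hδ') (Real.exp_pos _)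
  have he0 : 0 < e := by positivity
  have he1 : e < min (min δ δ') (Real.exp (-A)) := half_lt_self hm0
  have heδ : e < δ := lt_of_lt_of_le he1 (le_trans (min_le_left _ _) (min_le_left _ _))
  have heδ' : e < δ' := lt_of_lt_of_le he1 (le_trans (min_le_left _ _) (min_le_right _ _))
  have heA : e < Real.exp (-A) := lt_of_lt_of_le he1 (min_le_right _ _)
  have hlog : A < -Real.log e := by
    have h1 := Real.log_lt_log he0 heA
    rw [Real.log_exp] at h1
    linarith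
  refine ⟨1 + e, by linarith, by linarith, ?_⟩
  have h1 := h (1 + e) (by linarith) (by linarith)
  rw [add_sub_cancel_left] at h1 ⊢
  obtain ⟨d0, dm, du, df⟩ := hDSL K (1 + e) (by linarith)
  have h2 : DS K {v | (nv K v).Prime ∧ ∃ g ∈ frob K v, g ∈ U} (1 + e) ≤
      DS K ({v | (v ∉ T ∧ ∃ s ∈ frob K v, s ∈ U) ∧ (nv K v).Prime} ∪ (T \ {v | (v ∉ T ∧ ∃ s ∈ frob K v, s ∈ U) ∧ (nv K v).Prime})) (1 + e) := by
    apply dm
    rintro v ⟨hv1, hv2⟩
    by_cases hvT : v ∈ T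
    · exact Or.inr ⟨hvT, fun h => h.1.1 hvT⟩
    · exact Or.inl ⟨⟨hvT, hv2⟩, hv1⟩
  rw [du _ _ (Set.disjoint_sdiff_right)] at h2
  have h3 := (dm _ _ (Set.diff_subset (s := T) (t := {v | (v ∉ T ∧ ∃ s ∈ frob K v, s ∈ U) ∧ (nv K v).Prime}))).trans (df T hT)
  have h4 : 2 * (T.ncard : ℝ) / c < -Real.log e := by linarith
  have h5 : (T.ncard : ℝ) < c / 2 * (-Real.log e) := by
    rw [div_lt_iff₀ hc] at h4
    linarith
  linarith

end Pool.Agent.CD
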