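import Pool.Agent.helper1.CD.Spec2
import Pool.Agent.helper44.AX.Defs

/-!
# Project CD (MP_2e0e07_nt), row PST: a set of positive upper Dirichlet density is positive
-/

set_option autoImplicit false

open NumberField IsDedekindDomain Complex Pool.Agent.CH Pool.Agent.GK

namespace Pool.Agent.CD

theorem PST (hCLO : CLO_stmt) (K : Type) [Field K] [NumberField K] [MeasurableSpace (GalK K)] [BorelSpace (GalK K)]
    (μ : MeasureTheory.Measure (GalK K)) [μ.IsHaarMeasure] (S : Set (Pl K)) (hS : PosUD K S) :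
    Pool.Agent.AX.Positive μ (frob K) S := by
  obtain ⟨c, hc, h⟩ := hS
  have hfin : μ Set.univ < ⊤ := isCompact_univ.measure_lt_top
  have hpos : 0 < μ Set.univ := isOpen_univ.measure_pos μ Set.univ_nonempty
  have hr : 0 < μ.real Set.univ := ENNReal.toReal_pos hpos.ne' hfin.ne
  refine ⟨ENNReal.ofReal (c * μ.real Set.univ), ENNReal.ofReal_pos.2 (mul_pos hc hr), ?_⟩
  intro T hT
  refine (ENNReal.ofReal_le_ofReal (hCLO K μ S c h T hT)).trans ?_
  exact ENNReal.ofReal_toReal_le

end Pool.Agent.CD
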