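import Pool.Agent.helper1.CD.Spec
import Pool.Agent.helper67.RG.FDefs

/-!
# Project CD (MP_2e0e07_nt), part 2: sets of positive upper density are not negligible
-/

set_option autoImplicit false

open NumberField IsDedekindDomain Complex Pool.Agent.CH Pool.Agent.GK

namespace Pool.Agent.CD

/-- **NNP** (short; from CLO). If `NonNegl` fails there are a closed null set `C` and a finite `T` with `frob K v ⊆ C` for all `v ∈ S \ T`, so the closure of CLO is contained in `C` and has measure `0`, but `c > 0` and `μ univ > 0`. -/
def NNP_stmt : Prop := ∀ (K : Type) [Field K] [NumberField K] [MeasurableSpace (GalK K)] [BorelSpace (GalK K)]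
  (μ : MeasureTheory.Measure (GalK K)) [μ.IsHaarMeasure] (S : Set (Pl K)), PosUD K S →
  Pool.Agent.RG.NonNegl μ (frob K) S

/-- **GPD** (short; from NNP). If for every open normal subgroup `U` the places `v ∈ O` with `frob K v ⊆ U` (those which split completely in a finite Galois extension) have positive upper density then `O` is not negligible in any open subgroup. -/
def GPD_stmt : Prop := ∀ (K : Type) [Field K] [NumberField K] [MeasurableSpace (GalK K)] [BorelSpace (GalK K)]
  (μ : MeasureTheory.Measure (GalK K)) [μ.IsHaarMeasure] (O : Set (Pl K)),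
  (∀ U : Subgroup (GalK K), IsOpen (U : Set (GalK K)) → U.Normal → PosUD K {v | v ∈ O ∧ frob K v ⊆ U}) →
  Pool.Agent.RG.NonNeglOpen μ (frob K) O

/-- **FIP** (short; from SPO, DSL). The places of prime norm outside of a finite set with a Frobenius element in a nonempty open set have positive upper density. -/
def FIP_stmt : Prop := ∀ (K : Type) [Field K] [NumberField K] (U : Set (GalK K)) (T : Set (Pl K)), IsOpen U → U.Nonempty →
  T.Finite → PosUD K {v | (v ∉ T ∧ ∃ s ∈ frob K v, s ∈ U) ∧ (nv K v).Prime}

end Pool.Agent.CD
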