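import Pool.Agent.helper82.CH.AllA
import Pool.Agent.helper16.GK.All0
import Pool.Agent.helper1.CD.Spec2
import Pool.Agent.helper1.CD.GPD
import Pool.Agent.helper1.CD.PST
import Pool.Agent.helper3.CD.SMB
import Pool.Agent.helper79.CD.DSL
import Pool.Agent.helper43.CD.PRS
import Pool.Agent.helper53.CD.TOT
import Pool.Agent.helper98.CD.LBD
import Pool.Agent.helper35.CD.TRC
import Pool.Agent.helper29.CD.HCE
import Pool.Agent.helper18.CD.PAD
import Pool.Agent.helper20.CD.CNA
import Pool.Agent.helper83.CD.CNB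
import Pool.Agent.helper64.CD.CNT
import Pool.Agent.helper51.CD.GDN
import Pool.Agent.helper89.CD.UNQ
import Pool.Agent.helper44.CD.LOA
import Pool.Agent.helper23.CD.LOB
import Pool.Agent.helper2.CD.MCQ
import Pool.Agent.helper90.CD.GCQ
import Pool.Agent.helper75.CD.LOW
import Pool.Agent.helper40.CD.UPP
import Pool.Agent.helper63.CD.CHD
import Pool.Agent.helper23.CD.HAR
import Pool.Agent.helper39.CD.CLO
import Pool.Agent.helper25.CD.NNP
import Pool.Agent.helper33.CD.SPO

/-!
# Project CD (MP_2e0e07_nt): Chebotarev's density theorem and its consequences, assembled. No hypotheses.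
-/

set_option autoImplicit false

open NumberField IsDedekindDomain Complex Pool.Agent.CH Pool.Agent.GK

namespace Pool.Agent.CD

theorem UNF_all : UNF_stmt := Pool.Agent.GK.UNF_all
theorem LIF_all : LIF_stmt := Pool.Agent.GK.LIF_all
theorem NBH_all : NBH_stmt := Pool.Agent.GK.NBH
theorem FXU_all : FXU_stmt := Pool.Agent.GK.FXU

theorem DSL_all : DSL_stmt := DSL SMB
theorem PRS_all : PRS_stmt := PRS SMB
theorem TOT_all : TOT_stmt := TOT DSL_all SMB PRS_all KFV
theorem LBD_all : LBD_stmt := LBD CID CSM_all EXL LGB_all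
theorem PAD_all : PAD_stmt := PAD LBD_all TRC HCE LGB_all LCH_all KFV TRV_all NVS_all
theorem CNB_all : CNB_stmt := CNB UNF_all
theorem CNT_all : CNT_stmt := CNT CNA CNB_all
theorem GDN_all : GDN_stmt := GDN PAD_all CNT_all PRS_all Pool.Agent.CH.FRB
theorem UNQ_all : UNQ_stmt := UNQ UNF_all
theorem LOA_all : LOA_stmt := LOA UNQ_all
theorem LOB_all : LOB_stmt := LOB LOA_all GDN_all DSL_all SMB
theorem LOW_all : LOW_stmt := LOW LOB_all MCQ GCQ DSL_all MEX
theorem UPP_all : UPP_stmt := UPP LOW_all TOT_all DSL_all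

/-- **Chebotarev's density theorem** (Dirichlet density), without hypotheses. -/
theorem CHD_all : CHD_stmt := CHD LOW_all UPP_all UNQ_all DSL_all

theorem CLO_all : CLO_stmt := CLO UPP_all HAR DSL_all FXU_all LIF_all
theorem NNP_all : NNP_stmt := NNP CLO_all
theorem SPO_all : SPO_stmt := SPO LOW_all DSL_all NBH_all LIF_all
theorem GPD_all : GPD_stmt := GPD NNP_all
theorem FIP_all : FIP_stmt := FIP SPO_all DSL_all

end Pool.Agent.CD
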