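import Pool.Agent.helper16.GK.Defs

/-!
# Project CD (MP_2e0e07_nt): Dirichlet density of sets of places of a number field
-/

set_option autoImplicit false

namespace Pool.Agent.CD

open NumberField IsDedekindDomain Pool.Agent.GK

variable (K : Type) [Field K] [NumberField K]

/-- `∑_{v ∈ S} N(v) ^ (-s)`, the Dirichlet series of the set `S` of places. -/
noncomputable def DS (S : Set (Pl K)) (s : ℝ) : ℝ := ∑' v : S, (nv K v : ℝ) ^ (-s)

/-- The set `S` of places has positive upper Dirichlet density: the upper limit of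
`∑_{v ∈ S} N(v) ^ (-s) / log (1 / (s - 1))` for `s → 1`, `s > 1`, is positive. -/
def PosUD (S : Set (Pl K)) : Prop := ∃ c : ℝ, 0 < c ∧ ∀ δ : ℝ, 0 < δ →
  ∃ s : ℝ, 1 < s ∧ s < 1 + δ ∧ c * (-Real.log (s - 1)) ≤ DS K S s

end Pool.Agent.CD
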