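import Pool.Agent.helper16.GK.Defs
import Pool.Agent.helper1.CD.Defs
import Pool.Agent.helper82.CH.SpecA

/-!
# Project CD (MP_2e0e07_nt): Chebotarev's density theorem (Dirichlet density), and the absolute Galois group

Owner helper1. RULES. Row `XXX`: file `Pool/Agent/<seat>/CD/XXX.lean`, with the header

  import Pool.Agent.helper1.CD.Spec
  set_option autoImplicit false
  open NumberField IsDedekindDomain Complex Pool.Agent.CH Pool.Agent.GK
  namespace Pool.Agent.CD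

and the theorem line of the lock note. Auxiliary lemmas are prefixed `XXX_`. No sorry, no straight double quotes, no `convert`, no `congr!`. Rows of this file and of
`helper82/CH/SpecA.lean` (namespace `Pool.Agent.CH`: CID CSM EXL LGB LCH KFV TRV NVS HCD MEX FRB ..) are used only as hypotheses; unused ones may be dropped, others may be added (no circles).

Plan. Part A: `∑_{v} N(v)^(-s) = -log(s-1) + O(1)` and, for `M = F(ζ_m)`, degree one primes of `F` with norm `≡ r mod m`, with the right density. Part B: let `M / K` be Galois, `ζ_m ∈ M`, `g ∈ Gal(M/K)` good: `g^k ζ_m = ζ_m` only for `g^k = 1`.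
Then `M = F(ζ_m)` for the fixed field `F` of `g`, and a count gives the density of the places of `K` with the Frobenius class of `g`. Part C: almost all `g` are good if `m` is chosen well; the density theorem. Part D: closures of sets of Frobenius elements in the absolute Galois group.
-/

set_option autoImplicit false

open NumberField IsDedekindDomain Complex Pool.Agent.CH Pool.Agent.GK

namespace Pool.Agent.CD

section defs

variable (K : Type) [Field K] [NumberField K]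

/-- the lower Dirichlet density of `S` is at least `c` -/
def LowD (S : Set (Pl K)) (c : ℝ) : Prop := ∀ ε : ℝ, 0 < ε → ∃ δ : ℝ, 0 < δ ∧
  ∀ s : ℝ, 1 < s → s < 1 + δ → (c - ε) * (-Real.log (s - 1)) ≤ DS K S s

/-- the upper Dirichlet density of `S` is at most `c` -/
def UppD (S : Set (Pl K)) (c : ℝ) : Prop := ∀ ε : ℝ, 0 < ε → ∃ δ : ℝ, 0 < δ ∧
  ∀ s : ℝ, 1 < s → s < 1 + δ → DS K S s ≤ (c + ε) * (-Real.log (s - 1))

variable (M : Type) [Field M] [Algebra K M]

/-- the places of prime norm at which `g` is a Frobenius element of `M / K` -/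
def Fp (g : M ≃ₐ[K] M) : Set (Pl K) := {v | (nv K v).Prime ∧
  ∃ P : Ideal (𝓞 M), P.IsPrime ∧ P.under (𝓞 K) = v.asIdeal ∧ IsFr g P (nv K v)}

/-- the places at which all Frobenius elements of `M / K` are in `X` -/
def Ap (X : Set (M ≃ₐ[K] M)) : Set (Pl K) := {v | ∀ (P : Ideal (𝓞 M)) (g : M ≃ₐ[K] M),
  P.IsPrime → P.under (𝓞 K) = v.asIdeal → IsFr g P (nv K v) → g ∈ X}

end defs

/-- the property of `m` for the crossing, with a count -/
def Mq (B m : ℕ) (ε : ℝ) : Prop := 0 < m ∧ ∀ (H : Subgroup (ZMod m)ˣ), H.index ≤ B → H.index ≠ 0 →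
  ∀ (u : (ZMod m)ˣ) (n : ℕ), 0 < n → n ≤ B →
    (1 - ε) * (Nat.card H : ℝ) ≤ (Nat.card {h : (ZMod m)ˣ // h ∈ H ∧ n ∣ orderOf (u * h)} : ℝ)

/-! ## Known rows of project GK (hypotheses) -/

/-- copy of `Pool.Agent.GK.UNF_stmt` (proved; only a hypothesis here) -/
def UNF_stmt : Prop := ∀ (K L : Type) [Field K] [NumberField K] [Field L] [NumberField L] [Algebra K L] [IsGalois K L]
  (P : Ideal (𝓞 L)) (q : ℕ) (σ τ : Gal(L/K)), P.IsPrime → P ≠ ⊥ → ¬ P ∣ differentIdeal (𝓞 K) (𝓞 L) →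
  IsFr σ P q → IsFr τ P q → σ = τ

/-- copy of `Pool.Agent.LIF_stmt` (proved; only a hypothesis here) -/
def LIF_stmt : Prop := ∀ (K : Type) [Field K] [NumberField K] (L : IntermediateField K (AlgebraicClosure K))
  [FiniteDimensional K L] [NumberField L] [IsGalois K L] (g : GalK K) (P : Ideal (𝓞 L)) (v : Pl K), P.IsPrime →
  ¬ P ∣ differentIdeal (𝓞 K) (𝓞 L) → P.under (𝓞 K) = v.asIdeal →
  IsFr (AlgEquiv.restrictNormalHom L g) P (nv K v) → ∃ s ∈ frob K v, ∀ x ∈ L, s x = g x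

/-- copy of `Pool.Agent.NBH_stmt` (proved; only a hypothesis here) -/
def NBH_stmt : Prop := ∀ (K : Type) [Field K] [NumberField K] (O : Set (GalK K)), IsOpen O → ∀ g ∈ O,
  ∃ L : IntermediateField K (AlgebraicClosure K), FiniteDimensional K L ∧ IsGalois K L ∧
    ∀ s : GalK K, (∀ x ∈ L, s x = g x) → s ∈ O

/-- copy of `Pool.Agent.FXU_stmt` (proved; only a hypothesis here) -/
def FXU_stmt : Prop := ∀ (K : Type) [Field K] [NumberField K] (U : Subgroup (GalK K)), IsOpen (U : Set (GalK K)) → U.Normal →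
  ∃ L : IntermediateField K (AlgebraicClosure K), FiniteDimensional K L ∧ IsGalois K L ∧ Module.finrank K L = U.index ∧
    ∀ s : GalK K, s ∈ U ↔ ∀ x ∈ L, s x = x

/-! ## Part A: Dirichlet series -/

/-- **SMB** (medium). For a rational prime `p` there are at most `n = [K : ℚ]` places `v` over `p` (`p ∣ nv v`), and `nv v` is a power of `p`, `≥ p`, and `≥ p^2` if it is not a prime. (`Ideal.sum_ramification_inertia`, or: the product of the different primes over `p` divides `(p)`, whose norm is `p^n`,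
and each has norm at least `p`; see the proof of `CH.ZBD` in `Pool/Agent/helper68/CH/ZBD.lean`, and `Pool.Agent.GK.FRB` in helper92/GK/FRB.lean for `v ↦ p`.) So for every finite set `V` of places: `∑_{v ∈ V} nv^(-s) ≤ n ∑_p p^(-s)` and `≤ n ∑_p p^(-2s) ≤ n ∑_k k^(-2)` if no norm is a prime
(`Finset.sum_fiberwise`/`Finset.sum_comp`, `Nat.Primes.summable_rpow`); `summable_of_sum_le`, `Real.tsum_le_of_sum_le` (bounds for all finite partial sums). -/
def SMB_stmt : Prop := ∀ (K : Type) [Field K] [NumberField K],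
  (∀ s : ℝ, 1 < s → Summable fun v : Pl K => (nv K v : ℝ) ^ (-s)) ∧
  ∃ C : ℝ, ∀ s : ℝ, 1 < s → DS K {v | ¬ (nv K v).Prime} s ≤ C

/-- **DSL** (short; from SMB). Basic rules. -/
def DSL_stmt : Prop := ∀ (K : Type) [Field K] [NumberField K] (s : ℝ), 1 < s →
  (∀ S : Set (Pl K), 0 ≤ DS K S s) ∧ (∀ S S' : Set (Pl K), S ⊆ S' → DS K S s ≤ DS K S' s) ∧
  (∀ S S' : Set (Pl K), Disjoint S S' → DS K (S ∪ S') s = DS K S s + DS K S' s) ∧
  ∀ T : Set (Pl K), T.Finite → DS K T s ≤ (T.ncard : ℝ)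

/-- **PRS** (short-medium; from SMB). Group the places of prime norm by their norm (`Summable.tsum_sigma'`, `Equiv.sigmaFiberEquiv`, the fibres are finite: `Ideal.finite_setOfPred_absNorm_eq`, and the sum over a fibre is its cardinality times `p^(-s)`). An ideal of norm `p`, `p` a prime, is a nonzero prime ideal
(`Ideal.isPrime_of_irreducible_absNorm`), so `nd K p` is the number of places of norm `p`. -/
def PRS_stmt : Prop := ∀ (K : Type) [Field K] [NumberField K],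
  (∀ p : ℕ, p.Prime → nd K p = Nat.card {v : Pl K // nv K v = p}) ∧
  ∀ (S : Set (Pl K)) (s : ℝ), 1 < s → (∀ v ∈ S, (nv K v).Prime) →
    Summable (fun p : Nat.Primes => (Nat.card {v : Pl K // v ∈ S ∧ nv K v = p} : ℝ) * ((p : ℕ) : ℝ) ^ (-s)) ∧
    DS K S s = ∑' p : Nat.Primes, (Nat.card {v : Pl K // v ∈ S ∧ nv K v = p} : ℝ) * ((p : ℕ) : ℝ) ^ (-s)

/-- **TOT** (short; from DSL, SMB, PRS, CH.KFV). `DS univ = DS {nv prime} + DS {nv not prime}`; the first is `∑_p nd K p p^(-s) = -log(s-1) + O(1)` (PRS, KFV), the second is in `[0, C]` (SMB). -/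
def TOT_stmt : Prop := ∀ (K : Type) [Field K] [NumberField K], ∃ C δ : ℝ, 0 < δ ∧
  ∀ s : ℝ, 1 < s → s < 1 + δ → |DS K Set.univ s + Real.log (s - 1)| ≤ C

/-- **LBD** (medium; from CH.CID, CSM, EXL, LGB). By EXL (as in `PAPr_zz` of `Pool/Agent/helper53/CH/PAPr.lean`; `cc χ 1 = 1`: `PAPr_cc1`) `exp(l(s)) = L(s)` for `1 < Re s`, `l = LSeries (lg χ)` (`lg χ n = zz χ n / log n` by definition). Take `δ` with `‖L(s)/L(1) - 1‖ < 1/2` for `s ∈ [1, 1+δ)` (continuity).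
`h(s) = l(s) - log(L(s)/L(1))` (principal branch, in the slit plane) is differentiable on `(1, 1+δ)` (`LSeries_hasDerivAt`/`LSeries` is analytic in `1 < Re s` by CSM) and `exp(h(s)) = L(1)`, so `exp(h) h' = 0`, `h' = 0` and `h` is constant; `log(L(s)/L(1))` is bounded. (Or: `l' = -LSeries (zz χ) = L'/L` is bounded near `1`,
see `PAPr_bdd`, so `l` is bounded by the mean value inequality.) LGB: the sum over the primes differs from `l(s)` by `O(1)`. -/
def LBD_stmt : Prop := ∀ (F : Type) [Field F] [NumberField F] (χ : Ideal (𝓞 F) → ℂ) (L : ℂ → ℂ), CM χ → Differentiable ℂ L →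
  (∀ s : ℂ, 1 < s.re → LSeries (cc χ) s = L s) → L 1 ≠ 0 → ∃ C δ : ℝ, 0 < δ ∧ ∀ s : ℝ, 1 < s → s < 1 + δ →
    ‖∑' p : Nat.Primes, cc χ p * (((p : ℕ) : ℂ) ^ (-(s : ℂ)))‖ ≤ C

/-- **TRC** (medium). `N` is multiplicative and `a` is a product of primes prime to `(m)` (induction on primes), so let `a = P` be a prime, `P ∌ m`. `M / F` is Galois (cyclotomic). `Q` a prime of `𝓞 M` over `P`, `τ` a Frobenius element at `Q`: `IsArithFrobAt.exists_of_isInvariant (𝓞 F) (M ≃ₐ[F] M) Q`; `τ z = z^(N P)`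
(`AlgHom.IsArithFrobAt.apply_of_pow_eq_one`, `m ∉ Q`; `Nat.card (𝓞 F ⧸ Q.under (𝓞 F)) = absNorm P`). So `ψ(N P) = 1`. All steps are in `Pool/Agent/helper27/CH/FRB.lean` and `Pool/Agent/helper58/CH/SPL.lean`. -/
def TRC_stmt : Prop := ∀ (F M : Type) [Field F] [NumberField F] [Field M] [NumberField M] [Algebra F M] (m : ℕ) (z : M)
  (ψ : DirichletCharacter ℂ m), 0 < m → IsPrimitiveRoot z m → Algebra.adjoin F {z} = ⊤ →
  (∀ (g : M ≃ₐ[F] M) (r : ℕ), g z = z ^ r → ψ ((r : ℕ) : ZMod m) = 1) → Triv F ψ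

/-- **HCE** (medium). The other inequality of `CH.HCD` (`Pool/Agent/helper58/CH/HCD.lean`): the characters of `A = (ZMod m)ˣ` which are trivial on `H = κ(Gal(M/F))`, `|H| = [M : F]`, are the characters of `A ⧸ H`, and a finite abelian group has as many complex characters as elements
(`CommGroup.card_monoidHom_of_hasEnoughRootsOfUnity`). Every character of `A ⧸ H` gives one of them (`MulChar.equivToUnitHom`). -/
def HCE_stmt : Prop := ∀ (F M : Type) [Field F] [NumberField F] [Field M] [NumberField M] [Algebra F M] (m : ℕ) (z : M),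
  0 < m → IsPrimitiveRoot z m → Algebra.adjoin F {z} = ⊤ →
  m.totient ≤ Nat.card {ψ : DirichletCharacter ℂ m // ∀ (g : M ≃ₐ[F] M) (r : ℕ), g z = z ^ r → ψ ((r : ℕ) : ZMod m) = 1} *
    Module.finrank F M

/-- **PAD** (medium; from LBD, TRC, HCE, CH.LGB, LCH, KFV, TRV, NVS). As the proof of `CH.PAPr` (`Pool/Agent/helper53/CH/PAPr.lean`) without the factors `log p`. `χ_ψ`, `L_ψ` from LCH, `T_ψ(s) = ∑_{p ∤ m} ψ(p) nd F p p^(-s)`, which differs from the sum of LBD for `χ_ψ` by `O(1)` (the `p ∣ m`);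
`φ(m) ∑_{p ≡ r, p ∤ m} nd F p p^(-s) = ∑_ψ conj ψ(r) T_ψ(s)` (`r` is prime to `m`). For `Triv F ψ`: `ψ(r) = 1` (TRV), `T_ψ(s) ≥ -log(s-1) - C` (KFV); there are at least `φ(m)/[M : F]` of them (TRC, HCE). For the others `‖T_ψ(s)‖ ≤ C` (NVS, LBD). Take `δ ≤ 1`, so that `-log(s-1) ≥ 0`. -/
def PAD_stmt : Prop := ∀ (F M : Type) [Field F] [NumberField F] [Field M] [NumberField M] [Algebra F M]
  (m r : ℕ) (z : M) (g : M ≃ₐ[F] M), 0 < m → IsPrimitiveRoot z m → Algebra.adjoin F {z} = ⊤ → g z = z ^ r →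
  ∃ C δ : ℝ, 0 < δ ∧ ∀ s : ℝ, 1 < s → s < 1 + δ →
    -Real.log (s - 1) ≤ Module.finrank F M *
      (∑' p : Nat.Primes, if (p : ℕ) ≡ r [MOD m] then (nd F p : ℝ) * ((p : ℕ) : ℝ) ^ (-s) else 0) + C

/-! ## Part B: one conjugacy class -/

/-- **CNA** (medium). As part (3) of `CH.FRB` (`Pool/Agent/helper27/CH/FRB.lean`) for `L = M`, keeping track of the prime: `Q` a prime of `𝓞 M` over `I` (`I` is a prime, of norm `p`), `τ ∈ Gal(M/F)` a Frobenius element at `Q`, `τ z = z^p = z^r = g z`, so `τ = g`; `Q ∩ 𝓞 K = I ∩ 𝓞 K` has norm `p`. `IsFr g Q p` unfolds to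
`∀ x, g • x - x ^ p ∈ Q`. -/
def CNA_stmt : Prop := ∀ (K M : Type) [Field K] [NumberField K] [Field M] [NumberField M] [Algebra K M] [IsGalois K M]
  (m r : ℕ) (z : M) (g : M ≃ₐ[K] M), 0 < m → IsPrimitiveRoot z m → g z = z ^ r → (∀ k : ℕ, (g ^ k) z = z → g ^ k = 1) →
  ∀ (p : ℕ) (I : Ideal (𝓞 (IntermediateField.fixedField (Subgroup.zpowers g)))), p.Prime → ¬ p ∣ m → p ≡ r [MOD m] →
    Ideal.absNorm I = p → ∃ Q : Ideal (𝓞 M), Q.IsPrime ∧
      Q.under (𝓞 (IntermediateField.fixedField (Subgroup.zpowers g))) = I ∧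
      Ideal.absNorm (Q.under (𝓞 K)) = p ∧ IsFr g Q p

/-- **CNB** (medium; from UNF). `T` = the places below the primes which divide the different of `M / K` (finitely many, `differentIdeal_ne_bot`). Let `v ∉ T`, `Q₀` a prime of the set (else `0 ≤`). For `Q` in the set there is `h_Q` with `Q = h_Q Q₀` (`Algebra.IsInvariant.exists_smul_of_under_eq`), and `h_Q⁻¹ g h_Q` is a Frobenius
element at `Q₀`, so `h_Q⁻¹ g h_Q = g` (UNF). `g Q₀ = Q₀` (`g x ≡ x^q`, so `g Q₀ ≤ Q₀`, and `g` has finite order, or both are maximal). The map `(Q, k) ↦ h_Q g^k`, `k < orderOf g`, into the centraliser is injective: `h_Q g^k Q₀ = Q` determines `Q`, then `g^k` and `k` (`pow_injOn_Iio_orderOf`). -/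
def CNB_stmt : Prop := ∀ (K M : Type) [Field K] [NumberField K] [Field M] [NumberField M] [Algebra K M] [IsGalois K M]
  (g : M ≃ₐ[K] M), ∃ T : Finset (Pl K), ∀ v ∉ T,
    orderOf g * Nat.card {Q : Ideal (𝓞 M) // Q.IsPrime ∧ Q.under (𝓞 K) = v.asIdeal ∧ IsFr g Q (nv K v)} ≤
      Nat.card {h : M ≃ₐ[K] M // h * g = g * h}

/-- **CNT** (medium; from CNA, CNB). `D = m ∏_{v ∈ T} nv v` (`T` of CNB). CNA gives an injective map `I ↦ Q_I` (as `Q_I ∩ 𝓞 F = I`) from the ideals of `F` of norm `p` to the disjoint union over the `v ∈ Fp K M g`, `nv v = p` (`v = Q_I ∩ 𝓞 K`, `v ∉ T` as `p ∤ D`), of the sets of CNB. So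
`orderOf g * nd F p ≤ ∑_v orderOf g * #{Q over v} ≤ |C(g)| #{v}` (finitely many `v`, finitely many `Q`: `Finset.sum_le_card_nsmul`, `Finite` types: ideals of given norm are finite). -/
def CNT_stmt : Prop := ∀ (K M : Type) [Field K] [NumberField K] [Field M] [NumberField M] [Algebra K M] [IsGalois K M]
  (m r : ℕ) (z : M) (g : M ≃ₐ[K] M), 0 < m → IsPrimitiveRoot z m → g z = z ^ r → (∀ k : ℕ, (g ^ k) z = z → g ^ k = 1) →
  ∃ D : ℕ, 0 < D ∧ ∀ p : ℕ, p.Prime → ¬ p ∣ D → p ≡ r [MOD m] →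
    orderOf g * nd (IntermediateField.fixedField (Subgroup.zpowers g)) p ≤
      Nat.card {h : M ≃ₐ[K] M // h * g = g * h} * Nat.card {v : Pl K // v ∈ Fp K M g ∧ nv K v = p}

/-- **GDN** (medium; from PAD, CNT, PRS, CH.FRB). `F` = the fixed field of `⟨g⟩`, `[M : F] = orderOf g` (`IntermediateField.finrank_fixedField_eq_card`). `CH.FRB_stmt` for `L = M` (`Algebra.id`), `σ = g`: `F(z) = M`, `g' ∈ Gal(M/F)` with `g' z = z^r`. PAD: `-log(s-1) ≤ orderOf g ∑_{p ≡ r} nd F p p^(-s) + C`.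
Termwise (summable): for `p ∤ D` CNT; the finitely many `p ∣ D` contribute at most `orderOf g ∑_{p ∣ D} nd F p`. PRS for `S = Fp K M g`. -/
def GDN_stmt : Prop := ∀ (K M : Type) [Field K] [NumberField K] [Field M] [NumberField M] [Algebra K M] [IsGalois K M]
  (m r : ℕ) (z : M) (g : M ≃ₐ[K] M), 0 < m → IsPrimitiveRoot z m → g z = z ^ r → (∀ k : ℕ, (g ^ k) z = z → g ^ k = 1) →
  ∃ C δ : ℝ, 0 < δ ∧ ∀ s : ℝ, 1 < s → s < 1 + δ →
    -Real.log (s - 1) ≤ (Nat.card {h : M ≃ₐ[K] M // h * g = g * h} : ℝ) * DS K (Fp K M g) s + C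

/-- **UNQ** (short-medium; from UNF). `T` = the places below the primes which divide the different. `P' = h P` (`Algebra.IsInvariant.exists_smul_of_under_eq`), `h⁻¹ g' h` is a Frobenius element at `P`, so it is `g` (UNF). -/
def UNQ_stmt : Prop := ∀ (K M : Type) [Field K] [NumberField K] [Field M] [NumberField M] [Algebra K M] [IsGalois K M],
  ∃ T : Finset (Pl K), ∀ v ∉ T, ∀ (P P' : Ideal (𝓞 M)) (g g' : M ≃ₐ[K] M), P.IsPrime → P'.IsPrime →
    P.under (𝓞 K) = v.asIdeal → P'.under (𝓞 K) = v.asIdeal → IsFr g P (nv K v) → IsFr g' P' (nv K v) → IsConj g g'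

/-! ## Part C: the density theorem -/

/-- **LOA** (short-medium; from UNQ). If `v ∈ Fp g` for some `g` (else the sum is `0`) then all `g'` with `v ∈ Fp g'` are conjugate to `g`, there are at most `|G|/|C(g)|` of them (`g' = h g h⁻¹ ↔` the coset of `h` modulo the centraliser; `ConjClasses.card_carrier` or orbit-stabiliser for
`ConjAct`), and `|C(g')| = |C(g)|` for each. -/
def LOA_stmt : Prop := ∀ (K M : Type) [Field K] [NumberField K] [Field M] [NumberField M] [Algebra K M] [IsGalois K M],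
  ∃ T : Finset (Pl K), ∀ v ∉ T, ∀ Y : Finset (M ≃ₐ[K] M), (∀ g ∈ Y, v ∈ Fp K M g) →
    ∑ g ∈ Y, Nat.card {h : M ≃ₐ[K] M // h * g = g * h} ≤ Nat.card (M ≃ₐ[K] M)

/-- **LOB** (medium; from LOA, GDN, DSL, SMB). Sum of GDN over `g ∈ X` (`g z = z^r` for some `r`: `g z` is a root of `X^m - 1`, `IsPrimitiveRoot.eq_pow_of_pow_eq_one`): `|X| (-log(s-1)) ≤ ∑_{g ∈ X} |C(g)| DS(Fp g) + C`, `DS(Fp g) ≤ DS(Fp g \ T) + |T|`, and
`∑_{g ∈ X} |C(g)| DS(Fp g \ T) = ∑_{v ∉ T} nv^(-s) ∑_{g ∈ X, v ∈ Fp g} |C(g)| ≤ |G| DS(⋃_{g ∈ X} Fp g)` by LOA. -/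
def LOB_stmt : Prop := ∀ (K M : Type) [Field K] [NumberField K] [Field M] [NumberField M] [Algebra K M] [IsGalois K M]
  (m : ℕ) (z : M) (X : Set (M ≃ₐ[K] M)), 0 < m → IsPrimitiveRoot z m →
  (∀ g ∈ X, ∀ k : ℕ, (g ^ k) z = z → g ^ k = 1) →
  ∃ C δ : ℝ, 0 < δ ∧ ∀ s : ℝ, 1 < s → s < 1 + δ →
    (Nat.card X : ℝ) * (-Real.log (s - 1)) ≤ (Nat.card (M ≃ₐ[K] M) : ℝ) * DS K (⋃ g ∈ X, Fp K M g) s + C

/-- **MCQ** (medium, PURE). Variant of `CH.MCH` (`Pool/Agent/helper27/CH/MCH.lean`) with a count. `m = (∏_{l ≤ B prime} l)^k`, `A = (ZMod m)ˣ`, `l^b > B` (`b = B` works), `φ(m) = |A| = l^e t`, `l ∤ t`; `N_l = {x ∈ A : x^(t l^(b-1)) = 1}` is a subgroup; if `x ∉ N_l` then `l^b ∣ orderOf x` (the order divides `l^e t`). `w` = the class of `1 + 4 ∏_{l ≤ B} l`: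
`l^a ∣ w^j - 1` implies `l^(a-3) ∣ j` (lifting the exponent). So `w^j ∉ N_l` for `0 < j < l^(k-2-b)`, the `w^j`, `j < 2^(k-2-b)`, are in different cosets and `|N_l| ≤ |A| / 2^(k-2-b)`. An `x` outside of all `N_l`, `l ≤ B`, has `n ∣ orderOf x` for all `1 ≤ n ≤ B` (`v_l(n) < b`). So at most `B |A| / 2^(k-2-b) ≤ B^2 |H| / 2^(k-2-b) ≤ ε |H|` elements
`h ∈ H` (`|A| = index * |H|`) have `n ∤ orderOf (u h)`, if `k` is large. (`B = 0`: vacuous.) -/
def MCQ_stmt : Prop := ∀ (B : ℕ) (ε : ℝ), 0 < ε → ∃ m : ℕ, Mq B m ε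

/-- **GCQ** (medium). Variant of `CH.GEX` (`Pool/Agent/helper7/CH/GEX.lean`) with a count: `κ : Gal(M/K) → (ZMod m)ˣ`, `g z = z^(κ g)`; `H = κ(Gal(M/L))` has `[M : L]` elements (`κ` is injective on `Gal(M/L)`) and index at most `B`; `g₀` an extension of `σ`, `n = orderOf σ ≤ B`. For `t ∈ Gal(M/L)` with `n ∣ orderOf (κ(g₀) κ(t))`
the element `g₀ t` has the property (if `(g₀ t)^k z = z` then `n ∣ k` and so `(g₀ t)^k = 1`). `t ↦ κ(t) ∈ H` and `t ↦ g₀ t` are injective: the count is at least `(1 - ε) |H|`. -/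
def GCQ_stmt : Prop := ∀ (B m : ℕ) (ε : ℝ), Mq B m ε → ∀ (K L M : Type) [Field K] [NumberField K] [Field L] [NumberField L] [Field M] [NumberField M]
  [Algebra K L] [Algebra K M] [Algebra L M] [IsScalarTower K L M] [IsGalois K L] [IsGalois K M] (z : M) (σ : L ≃ₐ[K] L),
  Module.finrank ℚ L ≤ B → IsPrimitiveRoot z m → Algebra.adjoin L {z} = ⊤ →
  (1 - ε) * (Module.finrank L M : ℝ) ≤ (Nat.card {g : M ≃ₐ[K] M // (∀ x : L, g (algebraMap L M x) = algebraMap L M (σ x)) ∧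
    ∀ k : ℕ, (g ^ k) z = z → g ^ k = 1} : ℝ)

/-- **LOW** (medium; from LOB, MCQ, GCQ, DSL, CH.MEX). `m` from MCQ for `B = [L : ℚ]` and `ε/2`, `M`, `z` from MEX, `X' = {g : g|_L ∈ X, g^k z = z → g^k = 1}`: `|X'| ≥ (1 - ε/2) |X| [M : L]` (GCQ, disjoint union over `σ ∈ X`), `|Gal(M/K)| = [M : L] [L : K]`.
`Fp K M g ⊆ Fp K L (g|_L)` (take `P ∩ 𝓞 L`). LOB for `X'`: `DS(⋃_{σ ∈ X} Fp σ) ≥ DS(⋃_{X'} Fp g) ≥ (|X'|/|Gal(M/K)|)(-log(s-1)) - C ≥ (|X|/[L : K] - ε/2)(-log(s-1)) - C`, and `C ≤ (ε/2)(-log(s-1))` for `s` near `1`. -/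
def LOW_stmt : Prop := ∀ (K L : Type) [Field K] [NumberField K] [Field L] [NumberField L] [Algebra K L] [IsGalois K L]
  (X : Set (L ≃ₐ[K] L)), LowD K (⋃ σ ∈ X, Fp K L σ) ((Nat.card X : ℝ) / Module.finrank K L)

/-- **UPP** (short-medium; from LOW, TOT, DSL). `Ap K L X` is disjoint from `⋃_{σ ∉ X} Fp K L σ`, so `DS(Ap X) ≤ DS(univ) - DS(⋃_{σ ∉ X} Fp σ) ≤ (1 - |Xᶜ|/[L : K] + ε/2)(-log(s-1)) + C` (LOW for `Xᶜ`, TOT), `|Xᶜ| = [L : K] - |X|`, and `C ≤ (ε/2)(-log(s-1))`. -/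
def UPP_stmt : Prop := ∀ (K L : Type) [Field K] [NumberField K] [Field L] [NumberField L] [Algebra K L] [IsGalois K L]
  (X : Set (L ≃ₐ[K] L)), UppD K (Ap K L X) ((Nat.card X : ℝ) / Module.finrank K L)

/-- **CHD** (short-medium; from LOW, UPP, UNQ, DSL): Chebotarev's density theorem. The set contains `⋃_{σ ∈ X} Fp σ`, and without the finite set `T` of UNQ it is contained in `Ap K L X` (conjugates of elements of `X` are in `X`). So `LowD` and `UppD` with the same constant; `-log(s-1) → ∞` for `s → 1+`. -/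
def CHD_stmt : Prop := ∀ (K L : Type) [Field K] [NumberField K] [Field L] [NumberField L] [Algebra K L] [IsGalois K L]
  (X : Set (L ≃ₐ[K] L)), (∀ σ ∈ X, ∀ τ : L ≃ₐ[K] L, τ * σ * τ⁻¹ ∈ X) →
  Filter.Tendsto (fun s : ℝ => DS K {v | ∃ (P : Ideal (𝓞 L)) (σ : L ≃ₐ[K] L), P.IsPrime ∧ P.under (𝓞 K) = v.asIdeal ∧
    IsFr σ P (nv K v) ∧ σ ∈ X} s / (-Real.log (s - 1))) (nhdsWithin 1 (Set.Ioi 1))
    (nhds ((Nat.card X : ℝ) / Module.finrank K L))

/-! ## Part D: the absolute Galois group -/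

/-- **HAR** (medium, PURE). On a compact group every Haar measure is a multiple of the regular one (`MeasureTheory.Measure.isMulInvariant_eq_smul_of_compactSpace`, `Measure.haarMeasure` is regular), so it is outer regular: an open `O ⊇ C` with `μ O ≤ μ C + ε` (`Set.exists_isOpen_le_add`). For `c ∈ C` there is an open normal subgroup
`U_c` with `c U_c ⊆ O` (profinite: `ProfiniteGrp.exist_openNormalSubgroup_sub_open_nhds_of_one` or a similar name); finitely many `c_i U_(c_i)` cover `C`; `U = ⋂ U_(c_i)`: `C U ⊆ O`. `C U` is the disjoint union of the cosets in the image of `C` in `Γ ⧸ U`, each of measure `μ(univ)/index` (`μ(g U) = μ(U)`). -/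
def HAR_stmt : Prop := ∀ (Γ : Type) [Group Γ] [TopologicalSpace Γ] [IsTopologicalGroup Γ] [CompactSpace Γ] [TotallyDisconnectedSpace Γ]
  [MeasurableSpace Γ] [BorelSpace Γ] (μ : MeasureTheory.Measure Γ) [μ.IsHaarMeasure] (C : Set Γ), IsClosed C → ∀ ε : ℝ, 0 < ε →
  ∃ U : Subgroup Γ, IsOpen (U : Set Γ) ∧ U.Normal ∧
    (Nat.card ((fun g : Γ => (g : Γ ⧸ U)) '' C) : ℝ) * μ.real Set.univ ≤ (μ.real C + ε) * (U.index : ℝ)

/-- **CLO** (medium; from UPP, HAR, DSL, FXU, LIF). `C` = the closure, `ε > 0`, `U` from HAR, `L` from FXU (`[L : K] = U.index`, `s ∈ U ↔ s` is the identity on `L`), `X` = the set of the restrictions to `L` of the elements of `C`: `|X| ≤` the number of cosets. Let `v ∈ S \ T` be unramified in `L` (no prime over `v` divides the different;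
all but finitely many `v`). Then `v ∈ Ap K L X`: if `IsFr σ P (nv v)` and `g` extends `σ` then (LIF) some `s ∈ frob K v ⊆ C` agrees with `g` on `L`, so `σ ∈ X`. So `DS S ≤ DS (Ap X) + |T'|` and `c (-log(s-1)) ≤ (|X|/[L : K] + ε)(-log(s-1)) + |T'|` for a sequence `s → 1+`:
`c ≤ |X|/[L : K] + ε`, so `c μ(univ) ≤ μ(C) + ε + ε μ(univ)`. -/
def CLO_stmt : Prop := ∀ (K : Type) [Field K] [NumberField K] [MeasurableSpace (GalK K)] [BorelSpace (GalK K)]
  (μ : MeasureTheory.Measure (GalK K)) [μ.IsHaarMeasure] (S : Set (Pl K)) (c : ℝ),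
  (∀ δ : ℝ, 0 < δ → ∃ s : ℝ, 1 < s ∧ s < 1 + δ ∧ c * (-Real.log (s - 1)) ≤ DS K S s) →
  ∀ T : Set (Pl K), T.Finite → c * μ.real Set.univ ≤ μ.real (closure {s | ∃ v ∈ S, v ∉ T ∧ s ∈ frob K v})

/-- **SPO** (short-medium; from LOW, DSL, NBH, LIF). `g ∈ O`, `L` from NBH, `σ = g|_L`. LOW for `X = {σ}` and `ε = 1/(2 [L : K])`. For `v ∈ Fp K L σ`, `v` unramified in `L` (all but finitely many): LIF gives `s ∈ frob K v` which agrees with `g` on `L`, so `s ∈ O`. The finitely many other `v` contribute `O(1)`, and `-log(s-1) → ∞`. -/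
def SPO_stmt : Prop := ∀ (K : Type) [Field K] [NumberField K] (O : Set (GalK K)), IsOpen O → O.Nonempty →
  ∃ c δ : ℝ, 0 < c ∧ 0 < δ ∧ ∀ s : ℝ, 1 < s → s < 1 + δ →
    c * (-Real.log (s - 1)) ≤ DS K {v | (nv K v).Prime ∧ ∃ g ∈ frob K v, g ∈ O} s

end Pool.Agent.CD
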